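import Pool.Agent.H59.LIN.Targets

/-!
Board lin_modules, row CIR: the number of circles changes by one.
-/

set_option autoImplicit false

namespace Pool.Agent.H56.LIN

open Finset Equiv Pool.Agent.H59.LIN

section Quo

variable {α : Type} [Finite α]

/-- adding a pair of inequivalent elements -/
theorem card_add (r : α → α → Prop) {x y : α} (h : Quot.mk r x ≠ Quot.mk r y) :
    Nat.card (Quot r) = Nat.card (Quot fun a b => r a b ∨ (a = x ∧ b = y)) + 1 := by
  classical
  set r' : α → α → Prop := fun a b => r a b ∨ (a = x ∧ b = y) with hr'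
  set f : Quot r → Quot r := fun c => if c = Quot.mk r y then Quot.mk r x else c with hf
  have hfne : ∀ c, f c ≠ Quot.mk r y := by
    intro c
    simp only [hf]
    split_ifs with h1
    · exact h
    · exact h1
  set φ : Quot r → Quot r' := Quot.map id fun a b hab => Or.inl hab with hφ
  have hφxy : φ (Quot.mk r x) = φ (Quot.mk r y) := Quot.sound (Or.inr ⟨rfl, rfl⟩)
  have hφf : ∀ c, φ (f c) = φ c := by
    intro c
    simp only [hf]
    split_ifs with h1
    · rw [h1]
      exact hφxy
    · rfl
  let e : Quot r' ≃ {c : Quot r // c ≠ Quot.mk r y} :=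
    { toFun := Quot.lift (fun a => ⟨f (Quot.mk r a), hfne _⟩) (by
        rintro a b (hab | ⟨rfl, rfl⟩)
        · rw [Quot.sound hab]
        · refine Subtype.ext ?_
          simp only [hf]
          rw [if_neg h]
          simp)
      invFun := fun c => φ c.1
      left_inv := by
        intro c
        induction c using Quot.ind with
        | mk a => exact hφf (Quot.mk r a)
      right_inv := by
        rintro ⟨c, hc⟩
        refine Subtype.ext ?_
        induction c using Quot.ind with
        | mk a =>
          change f (Quot.mk r a) = Quot.mk r a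
          simp only [hf]
          rw [if_neg hc] }
  rw [Nat.card_congr e, ← Nat.card_congr (Equiv.optionSubtypeNe (Quot.mk r y)),
    Finite.card_option]

/-- adding a pair of equivalent elements -/
theorem card_same (r : α → α → Prop) {x y : α} (h : Quot.mk r x = Quot.mk r y) :
    Nat.card (Quot r) = Nat.card (Quot fun a b => r a b ∨ (a = x ∧ b = y)) := by
  refine Nat.card_congr
    { toFun := Quot.map id fun a b hab => Or.inl hab
      invFun := Quot.lift (Quot.mk r) (by
        rintro a b (hab | ⟨rfl, rfl⟩)
        · exact Quot.sound hab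
        · exact h)
      left_inv := by
        intro c
        induction c using Quot.ind with
        | mk a => rfl
      right_inv := by
        intro c
        induction c using Quot.ind with
        | mk a => rfl }

end Quo

section Perm

variable {α : Type} [Finite α] [DecidableEq α]

/-- classes and cycles -/
theorem mk_eq_iff (σ : Perm α) (a b : α) :
    Quot.mk (fun x y => y = σ x) a = Quot.mk (fun x y => y = σ x) b ↔ ∃ n : ℕ, (σ ^ n) a = b := by
  have hpow : ∀ (n : ℕ) (a : α), Quot.mk (fun x y => y = σ x) ((σ ^ n) a) =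
      Quot.mk (fun x y => y = σ x) a := by
    intro n
    induction n with
    | zero => intro a; rfl
    | succ n ih =>
      intro a
      rw [pow_succ', Perm.mul_apply, ← ih a]
      exact (Quot.sound (r := fun x y => y = σ x) rfl).symm
  constructor
  · intro h
    have h1 : Quot.lift (fun b => σ.SameCycle a b) (by
        rintro b c rfl
        exact propext (Perm.sameCycle_apply_right.symm)) (Quot.mk (fun x y => y = σ x) b) := by
      rw [← h]
    have h2 : σ.SameCycle a b := h1
    obtain ⟨n, -, hn⟩ := h2.exists_pow_eq'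
    exact ⟨n, hn⟩
  · rintro ⟨n, rfl⟩
    exact (hpow n a).symm

/-- inequivalent elements become equivalent -/
theorem xor_b (σ : Perm α) {x y : α} (_hxy : x ≠ y) (h : ¬ ∃ n : ℕ, (σ ^ n) y = x) :
    ∃ n : ℕ, ((σ * swap x y) ^ n) x = y := by
  classical
  have hex : ∃ k : ℕ, 0 < k ∧ (σ ^ k) y = y := by
    refine ⟨orderOf σ, orderOf_pos σ, ?_⟩
    rw [pow_orderOf_eq_one]
    rfl
  obtain ⟨hk0, hk⟩ := Nat.find_spec hex
  set k := Nat.find hex with hkd
  have hmin : ∀ i, 0 < i → i < k → (σ ^ i) y ≠ y := fun i h0 hi h1 =>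
    Nat.find_min hex hi ⟨h0, h1⟩
  have hstep : ∀ i, i + 1 ≤ k → ((σ * swap x y) ^ (i + 1)) x = (σ ^ (i + 1)) y := by
    intro i
    induction i with
    | zero =>
      intro _
      rw [zero_add, pow_one, pow_one, Perm.mul_apply, swap_apply_left]
    | succ i ih =>
      intro hi
      rw [pow_succ', Perm.mul_apply, ih (by omega), Perm.mul_apply,
        swap_apply_of_ne_of_ne (fun h1 => h ⟨_, h1⟩) (hmin (i + 1) (by omega) (by omega)),
        pow_succ' σ (i + 1), Perm.mul_apply]
  refine ⟨k, ?_⟩
  have h1 := hstep (k - 1) (by omega)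
  rw [show k - 1 + 1 = k by omega] at h1
  rw [h1, hk]

omit [Finite α] in
/-- equivalent elements become inequivalent -/
theorem xor_a (σ : Perm α) {x y : α} (hxy : x ≠ y) (h : ∃ n : ℕ, (σ ^ n) y = x) :
    ¬ ∃ n : ℕ, ((σ * swap x y) ^ n) x = y := by
  classical
  set k := Nat.find h with hkd
  have hk : (σ ^ k) y = x := Nat.find_spec h
  have hmin : ∀ i, i < k → (σ ^ i) y ≠ x := fun i hi => Nat.find_min h hi
  have hk0 : 0 < k := by
    rcases Nat.eq_zero_or_pos k with h0 | h0
    · rw [h0] at hk
      exact absurd hk.symm hxy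
    · exact h0
  have hmin' : ∀ i, 0 < i → i < k → (σ ^ i) y ≠ y := by
    intro i h0 hi h1
    refine hmin (k - i) (by omega) ?_
    have h2 : (σ ^ k) y = (σ ^ (k - i)) ((σ ^ i) y) := by
      rw [← Perm.mul_apply, ← pow_add]
      congr 2
      omega
    rw [h1, hk] at h2
    exact h2.symm
  have hstep : ∀ i, i + 1 ≤ k → ((σ * swap x y) ^ (i + 1)) x = (σ ^ (i + 1)) y := by
    intro i
    induction i with
    | zero =>
      intro _
      rw [zero_add, pow_one, pow_one, Perm.mul_apply, swap_apply_left]
    | succ i ih =>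
      intro hi
      rw [pow_succ', Perm.mul_apply, ih (by omega), Perm.mul_apply,
        swap_apply_of_ne_of_ne (hmin (i + 1) (by omega)) (hmin' (i + 1) (by omega) (by omega)),
        pow_succ' σ (i + 1), Perm.mul_apply]
  have hper : ((σ * swap x y) ^ k) x = x := by
    have h1 := hstep (k - 1) (by omega)
    rw [show k - 1 + 1 = k by omega] at h1
    rw [h1, hk]
  rintro ⟨n, hn⟩
  have hmod : ∀ q : ℕ, (((σ * swap x y) ^ k) ^ q) x = x := by
    intro q
    induction q with
    | zero => rfl
    | succ q ih => rw [pow_succ, Perm.mul_apply, hper, ih]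
  have h1 : ((σ * swap x y) ^ (n % k)) x = y := by
    have h2 : n = n % k + k * (n / k) := (Nat.mod_add_div n k).symm
    rw [h2, pow_add, Perm.mul_apply, pow_mul, hmod] at hn
    exact hn
  have hlt := Nat.mod_lt n hk0
  rcases Nat.eq_zero_or_pos (n % k) with h0 | h0
  · rw [h0] at h1
    exact hxy h1
  · obtain ⟨i, hi⟩ : ∃ i, n % k = i + 1 := ⟨n % k - 1, by omega⟩
    rw [hi, hstep i (by omega)] at h1
    exact hmin' (i + 1) (by omega) (by omega) h1

omit [Finite α] in
/-- the relation with the additional pair -/
theorem card_swap (σ : Perm α) (x y : α) :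
    Nat.card (Quot fun a b => b = σ a ∨ (a = x ∧ b = y)) =
      Nat.card (Quot fun a b => b = (σ * swap x y) a ∨ (a = x ∧ b = y)) := by
  have key : ∀ σ : Perm α, ∀ a b : α, (b = σ a ∨ (a = x ∧ b = y)) →
      Quot.mk (fun a b => b = (σ * swap x y) a ∨ (a = x ∧ b = y)) a =
        Quot.mk (fun a b => b = (σ * swap x y) a ∨ (a = x ∧ b = y)) b := by
    intro σ a b hab
    set r : α → α → Prop := fun a b => b = (σ * swap x y) a ∨ (a = x ∧ b = y) with hr
    have hxy : Quot.mk r x = Quot.mk r y := Quot.sound (Or.inr ⟨rfl, rfl⟩)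
    have hτ : ∀ a, Quot.mk r a = Quot.mk r ((σ * swap x y) a) := fun a => Quot.sound (Or.inl rfl)
    rcases hab with rfl | ⟨rfl, rfl⟩
    · by_cases h1 : a = x
      · have h2 := hτ y
        rw [Perm.mul_apply, swap_apply_right] at h2
        rw [h1, hxy, h2]
      · by_cases h2 : a = y
        · have h3 := hτ x
          rw [Perm.mul_apply, swap_apply_left] at h3
          rw [h2, ← hxy, h3]
        · have h3 := hτ a
          rwa [Perm.mul_apply, swap_apply_of_ne_of_ne h1 h2] at h3
    · exact hxy
  have key' : ∀ a b : α, (b = (σ * swap x y) a ∨ (a = x ∧ b = y)) →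
      Quot.mk (fun a b => b = σ a ∨ (a = x ∧ b = y)) a =
        Quot.mk (fun a b => b = σ a ∨ (a = x ∧ b = y)) b := by
    have h1 := key (σ * swap x y)
    rw [mul_assoc, swap_mul_self, mul_one] at h1
    exact h1
  refine Nat.card_congr
    { toFun := Quot.lift (Quot.mk _) (key σ)
      invFun := Quot.lift (Quot.mk _) key'
      left_inv := by
        intro c
        induction c using Quot.ind with
        | mk a => rfl
      right_inv := by
        intro c
        induction c using Quot.ind with
        | mk a => rfl }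

/-- multiplication by a transposition changes the number of the cycles by one -/
theorem ncl_swap (σ : Perm α) {x y : α} (hxy : x ≠ y) :
    ncl (σ * swap x y : Perm α) = ncl σ + 1 ∨ ncl (σ * swap x y : Perm α) + 1 = ncl σ := by
  unfold ncl
  by_cases h : ∃ n : ℕ, (σ ^ n) y = x
  · have h1 : Quot.mk (fun x y => y = σ x) x = Quot.mk (fun x y => y = σ x) y :=
      ((mk_eq_iff σ y x).2 h).symm
    have h2 : Quot.mk (fun a b => b = (σ * swap x y) a) x ≠
        Quot.mk (fun a b => b = (σ * swap x y) a) y := fun h3 =>
      xor_a σ hxy h ((mk_eq_iff _ _ _).1 h3)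
    left
    rw [card_add _ h2, card_same _ h1, card_swap σ x y]
  · have h1 : Quot.mk (fun x y => y = σ x) x ≠ Quot.mk (fun x y => y = σ x) y := fun h3 =>
      h ((mk_eq_iff σ y x).1 h3.symm)
    have h2 : Quot.mk (fun a b => b = (σ * swap x y) a) x =
        Quot.mk (fun a b => b = (σ * swap x y) a) y := (mk_eq_iff _ _ _).2 (xor_b σ hxy h)
    right
    rw [card_same _ h2, card_add _ h1, card_swap σ x y]

end Perm

/-- the rotation is one cycle -/
theorem ncl_rot : ∀ m : ℕ, 0 < m → ncl (fun x : Fin m => finRotate m x) = 1 := by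
  intro m hm
  obtain ⟨n, rfl⟩ : ∃ n, m = n + 1 := ⟨m - 1, by omega⟩
  unfold ncl
  rw [Nat.card_eq_one_iff_unique]
  have h1 : ∀ i : Fin (n + 1), Quot.mk (fun x y => y = finRotate (n + 1) x) i =
      Quot.mk (fun x y => y = finRotate (n + 1) x) 0 := by
    intro i
    induction i using Fin.induction with
    | zero => rfl
    | succ i ih =>
      rw [← ih]
      refine (Quot.sound ?_).symm
      rw [finRotate_succ_apply, Fin.coeSucc_eq_succ]
  refine ⟨⟨fun a b => ?_⟩, ⟨Quot.mk _ 0⟩⟩
  induction a using Quot.ind with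
  | mk a =>
    induction b using Quot.ind with
    | mk b => rw [h1 a, h1 b]

/-- the jump is an involution -/
theorem jmp_jmp {d : ℕ} (D : CD d) (B : Finset (Fin d)) (x : Fin (2 * d)) :
    jmp D B (jmp D B x) = x := by
  unfold jmp
  by_cases h : (D x).1 ∈ B
  · rw [if_pos h, Equiv.apply_symm_apply, if_pos h]
    simp
  · rw [if_neg h, if_neg h]

/-- the permutation of the arcs -/
def per {d : ℕ} (D : CD d) (B : Finset (Fin d)) : Perm (Fin (2 * d)) :=
  finRotate (2 * d) * ⟨jmp D B, jmp D B, jmp_jmp D B, jmp_jmp D B⟩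

theorem circ_eq {d : ℕ} (D : CD d) (B : Finset (Fin d)) : circ D B = ncl (per D B) := rfl

theorem per_insert {d : ℕ} (D : CD d) {B : Finset (Fin d)} {c : Fin d} (hc : c ∉ B) :
    per D (insert c B) = per D B * swap (D.symm (c, false)) (D.symm (c, true)) := by
  ext1 z
  rw [Perm.mul_apply]
  change finRotate (2 * d) (jmp D (insert c B) z) = finRotate (2 * d) (jmp D B _)
  congr 1
  by_cases h1 : z = D.symm (c, false)
  · rw [h1, swap_apply_left]
    unfold jmp
    rw [Equiv.apply_symm_apply, Equiv.apply_symm_apply, if_pos (Finset.mem_insert_self _ _),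
      if_neg hc]
    rfl
  · by_cases h2 : z = D.symm (c, true)
    · rw [h2, swap_apply_right]
      unfold jmp
      rw [Equiv.apply_symm_apply, Equiv.apply_symm_apply, if_pos (Finset.mem_insert_self _ _),
        if_neg hc]
      rfl
    · rw [swap_apply_of_ne_of_ne h1 h2]
      have h3 : (D z).1 ≠ c := by
        intro h4
        rcases hb : (D z).2 with _ | _
        · exact h1 (by rw [Equiv.eq_symm_apply]; exact Prod.ext h4 hb)
        · exact h2 (by rw [Equiv.eq_symm_apply]; exact Prod.ext h4 hb)
      unfold jmp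
      simp only [Finset.mem_insert, h3, false_or]

theorem pf_CIR : Pool.Agent.H59.LIN.T_CIR := by
  intro d D hd
  refine ⟨?_, fun B c hc => ?_⟩
  · have h1 : (fun x => finRotate (2 * d) (jmp D ∅ x)) = fun x => finRotate (2 * d) x := by
      funext x
      unfold jmp
      rw [if_neg (Finset.notMem_empty _)]
    unfold circ
    rw [h1]
    exact ncl_rot (2 * d) (by omega)
  · rw [circ_eq, circ_eq, per_insert D hc]
    refine ncl_swap (per D B) fun h => ?_
    have h1 := D.symm.injective h
    simp at h1

end Pool.Agent.H56.LIN
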